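import Pool.Agent.H.MP_9e6215_co.C

set_option autoImplicit false

namespace Pool.Agent.Results.MP_9e6215_co.Yes

open Pool.Agent.H.MP_9e6215_co

/-- There is a uniformly factor-balanced binary word whose factor complexity is superlinear. -/
theorem result : ∃ x : ℕ → Bool, UFB x ∧ ∀ C : ℕ, ∃ n : ℕ, 1 ≤ n ∧ C * n < cpx x n := main

end Pool.Agent.Results.MP_9e6215_co.Yes
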